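import Pool.Agent.Helper86.FS.StartGoals
import Pool.Agent.Helper86.FS.StartEqv

/-! Project FS (MP_75608d_al), part START: packet E1B (the long range event). -/

set_option linter.unusedVariables false

namespace Pool.Agent.Helper88.FS

open Equiv Pool.Agent.Helper3.AK Pool.Agent.Helper86.FS

theorem half_pow_le_desc (n r : ℕ) (h : 2 * r ≤ n) :
    ((n : ℝ) / 2) ^ r ≤ (n.descFactorial r : ℝ) := by
  have h1 : (n + 1 - r) ^ r ≤ n.descFactorial r := Nat.pow_sub_le_descFactorial n r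
  have h2 : ((n : ℝ) / 2) ≤ ((n + 1 - r : ℕ) : ℝ) := by
    have h3 : (n : ℝ) ≤ ((2 * (n + 1 - r) : ℕ) : ℝ) := by
      exact_mod_cast (by omega : n ≤ 2 * (n + 1 - r))
    push_cast at h3 ⊢
    linarith
  calc ((n : ℝ) / 2) ^ r ≤ ((n + 1 - r : ℕ) : ℝ) ^ r :=
        pow_le_pow_left₀ (by positivity) h2 r
    _ ≤ (n.descFactorial r : ℝ) := by exact_mod_cast h1

theorem e1b (hA : E1AStmt) : E1BStmt := by
  intro n b m M t t2 κ hW hn c y τ hτ D S hS σ B2 hσ hSσ ω hB2 ev hev _
  classical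
  set V : ℝ := (m : ℝ) ^ 2 * b * σ with hV
  have hV0 : 0 ≤ V := by rw [hV]; positivity
  have hB0 : 0 ≤ B2 := le_trans (Nat.cast_nonneg _) hB2
  set θ : ℝ := 4 * B2 / (n : ℝ) ^ 2 with hθ
  have hθ0 : 0 ≤ θ := by rw [hθ]; positivity
  set φ : ℝ := 4 * V / (n : ℝ) ^ 2 with hφ
  have hφ0 : 0 ≤ φ := by rw [hφ]; positivity
  let F2 : Finset (Finset (Fin M)) :=
    (Finset.univ : Finset (Fin M)).powerset.filter fun T => T.card ≤ t2
  let F1 : Finset (Finset (Fin M)) := Finset.powersetCard t (Finset.univ : Finset (Fin M))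
  let e' : Finset (Fin M) → Finset (Fin M) → Perm (Fin n) → Prop := fun T1 T2 w =>
    ev w ∧ cw c (y * w) (W2 D ω) = T2 ∧ T1 ⊆ PR c y τ D S (dact w ω)
  -- union bound
  have h1 : ∑ w, κ w * (if ev w then (1 : ℝ) else 0) ≤
      ∑ w, ∑ T2 ∈ F2, ∑ T1 ∈ F1, κ w * (if e' T1 T2 w then (1 : ℝ) else 0) := by
    refine Finset.sum_le_sum fun w _ => ?_
    have hnn : ∀ T1 T2, 0 ≤ κ w * (if e' T1 T2 w then (1 : ℝ) else 0) := by
      intro T1 T2
      refine mul_nonneg (hW.nonneg w) ?_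
      split_ifs <;> norm_num
    by_cases hw : ev w
    · obtain ⟨hc1, hc2⟩ := hev w hw
      obtain ⟨T1, hT1, hT1c⟩ := Finset.exists_subset_card_eq hc2
      have hT2 : cw c (y * w) (W2 D ω) ∈ F2 := by
        simp only [F2, Finset.mem_filter, Finset.mem_powerset, Finset.subset_univ, true_and]
        rw [← cw_W2_dact]
        exact hc1
      have hT1' : T1 ∈ F1 := by
        simp only [F1, Finset.mem_powersetCard, Finset.subset_univ, true_and]
        exact hT1c
      have hval : κ w * (if e' T1 (cw c (y * w) (W2 D ω)) w then (1 : ℝ) else 0) =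
          κ w * (if ev w then (1 : ℝ) else 0) := by
        rw [if_pos hw, if_pos]
        exact ⟨hw, rfl, hT1⟩
      rw [← hval]
      calc κ w * (if e' T1 (cw c (y * w) (W2 D ω)) w then (1 : ℝ) else 0)
          ≤ ∑ T1 ∈ F1, κ w * (if e' T1 (cw c (y * w) (W2 D ω)) w then (1 : ℝ) else 0) :=
            Finset.single_le_sum
              (f := fun T1 => κ w * (if e' T1 (cw c (y * w) (W2 D ω)) w then (1 : ℝ) else 0))
              (fun T1 _ => hnn T1 _) hT1'
        _ ≤ ∑ T2 ∈ F2, ∑ T1 ∈ F1, κ w * (if e' T1 T2 w then (1 : ℝ) else 0) :=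
            Finset.single_le_sum
              (f := fun T2 => ∑ T1 ∈ F1, κ w * (if e' T1 T2 w then (1 : ℝ) else 0))
              (fun T2 _ => Finset.sum_nonneg fun T1 _ => hnn T1 T2) hT2
    · rw [if_neg hw, mul_zero]
      exact Finset.sum_nonneg fun T2 _ => Finset.sum_nonneg fun T1 _ => hnn T1 T2
  -- one term
  have h2 : ∀ T2 ∈ F2, ∀ T1 ∈ F1,
      ∑ w, κ w * (if e' T1 T2 w then (1 : ℝ) else 0) ≤ 2 * (θ ^ T2.card * φ ^ t) := by
    intro T2 hT2 T1 hT1
    have hc2 : T2.card ≤ t2 := by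
      simp only [F2, Finset.mem_filter] at hT2
      exact hT2.2
    have hc1 : T1.card = t := (Finset.mem_powersetCard.1 hT1).2
    have hR : 2 * (T1.card + T2.card) ≤ 2 * (t + t2) := by omega
    have h3 := hA n b m M (2 * (t + t2)) κ hW c y τ hτ D S hS σ B2 hσ hSσ ω hB2 T1 T2 hR
      (e' T1 T2) (fun w hw => ⟨hw.2.1, hw.2.2⟩)
    refine h3.trans ?_
    have h4 : ((n : ℝ) / 2) ^ (2 * (T1.card + T2.card)) ≤
        (n.descFactorial (2 * (T1.card + T2.card)) : ℝ) :=
      half_pow_le_desc n _ (by omega)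
    rw [hc1] at h4 ⊢
    rcases Nat.eq_zero_or_pos n with h0 | h0
    · have ht : t = 0 := by omega
      have ht2 : T2.card = 0 := by omega
      rw [ht, ht2]
      simp
    · have hn0 : (0 : ℝ) < n := by exact_mod_cast h0
      have h5 : (0 : ℝ) < ((n : ℝ) / 2) ^ (2 * (t + T2.card)) := by positivity
      calc 2 * (B2 ^ T2.card * V ^ t) / (n.descFactorial (2 * (t + T2.card)) : ℝ)
          ≤ 2 * (B2 ^ T2.card * V ^ t) / ((n : ℝ) / 2) ^ (2 * (t + T2.card)) := by
            refine div_le_div_of_nonneg_left ?_ h5 h4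
            positivity
        _ = 2 * (θ ^ T2.card * φ ^ t) := by
            rw [hθ, hφ]
            have h6 : ((n : ℝ) / 2) ^ (2 * (t + T2.card)) =
                ((n : ℝ) ^ 2 / 4) ^ T2.card * ((n : ℝ) ^ 2 / 4) ^ t := by
              rw [pow_mul, ← pow_add, add_comm t]
              congr 1
              ring
            have h7 : 4 * B2 / (n : ℝ) ^ 2 = B2 / ((n : ℝ) ^ 2 / 4) := by
              rw [div_div_eq_mul_div]; ring
            have h8 : 4 * V / (n : ℝ) ^ 2 = V / ((n : ℝ) ^ 2 / 4) := by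
              rw [div_div_eq_mul_div]; ring
            have h9 : (0 : ℝ) < ((n : ℝ) ^ 2 / 4) ^ T2.card := by positivity
            have h10 : (0 : ℝ) < ((n : ℝ) ^ 2 / 4) ^ t := by positivity
            rw [h6, h7, h8]
            generalize (n : ℝ) ^ 2 / 4 = N4 at h9 h10 ⊢
            rw [div_pow, div_pow, div_mul_div_comm, mul_div_assoc]
  -- summation
  have h3 : ∑ w, ∑ T2 ∈ F2, ∑ T1 ∈ F1, κ w * (if e' T1 T2 w then (1 : ℝ) else 0) ≤
      ∑ T2 ∈ F2, ∑ T1 ∈ F1, 2 * (θ ^ T2.card * φ ^ t) := by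
    rw [Finset.sum_comm]
    refine Finset.sum_le_sum fun T2 hT2 => ?_
    rw [Finset.sum_comm]
    exact Finset.sum_le_sum fun T1 hT1 => h2 T2 hT2 T1 hT1
  have h4 : ∑ T2 ∈ F2, ∑ T1 ∈ F1, 2 * (θ ^ T2.card * φ ^ t) =
      2 * ((∑ T2 ∈ F2, θ ^ T2.card) * ((M.choose t : ℝ) * φ ^ t)) := by
    have h5 : F1.card = M.choose t := by
      simp only [F1, Finset.card_powersetCard, Finset.card_univ, Fintype.card_fin]
    simp only [Finset.sum_const, nsmul_eq_mul, h5]
    rw [Finset.sum_mul, Finset.mul_sum]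
    refine Finset.sum_congr rfl fun T2 _ => ?_
    ring
  have h5 : ∑ T2 ∈ F2, θ ^ T2.card ≤ Real.exp (4 * M * B2 / (n : ℝ) ^ 2) := by
    calc ∑ T2 ∈ F2, θ ^ T2.card
        ≤ ∑ T2 ∈ (Finset.univ : Finset (Fin M)).powerset, θ ^ T2.card := by
          refine Finset.sum_le_sum_of_subset_of_nonneg (Finset.filter_subset _ _) ?_
          intro T _ _
          positivity
      _ = (θ + 1) ^ M := by
          have h6 := Finset.sum_pow_mul_eq_add_pow θ 1 (Finset.univ : Finset (Fin M))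
          simp only [one_pow, mul_one, Finset.card_univ, Fintype.card_fin] at h6
          exact h6
      _ ≤ Real.exp θ ^ M := pow_le_pow_left₀ (by positivity) (Real.add_one_le_exp θ) M
      _ = Real.exp (4 * M * B2 / (n : ℝ) ^ 2) := by
          rw [← Real.exp_nat_mul]
          congr 1
          rw [hθ]
          ring
  refine h1.trans (h3.trans ?_)
  rw [h4]
  refine mul_le_mul_of_nonneg_left ?_ (by norm_num)
  exact mul_le_mul_of_nonneg_right h5 (by positivity)

end Pool.Agent.Helper88.FS
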